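import Pool.Agent.COS.StmtsT

set_option autoImplicit false

/-!
# COS, row TIF: tensor isomorphism over the field with two elements is in parity-P
-/

namespace Pool.Agent.COS.H13

open Pool.Agent.PAR Pool.Agent.COS

theorem le_two_mul_cube (n : ℕ) : n ≤ 2 * n ^ 3 := by
  rcases Nat.eq_zero_or_pos n with rfl | hn
  · simp
  · calc n = n ^ 1 := (pow_one n).symm
      _ ≤ n ^ 3 := Nat.pow_le_pow_right hn (by norm_num)
      _ ≤ 2 * n ^ 3 := by omega

theorem cube_inj {n m : ℕ} (h : 2 * n ^ 3 = 2 * m ^ 3) : n = m := by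
  have h1 : n ^ 3 = m ^ 3 := by omega
  exact Nat.pow_left_injective (by norm_num : (3 : ℕ) ≠ 0) h1

/-- the key statement for the dimension `N = 3 |x|` -/
theorem key (hG : TigStmt) (V : Word × Word → Bool)
    (hV : ∀ (x : Word) (M : Matrix (Fin (3 * x.length)) (Fin (3 * x.length)) (ZMod 2)),
      V (x, enc M) = true ↔ ∃ n : ℕ, x.length = 2 * n ^ 3 ∧
        BlkSol n (3 * x.length) (tens n x 0) (tens n x (n ^ 3)) M) (x : Word) (N : ℕ)
    (hN : N = 3 * x.length) :
    Heap {A : Gr N | V (x, enc A.1) = true} ∧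
      ({A : Gr N | V (x, enc A.1) = true}.Nonempty ↔ x ∈ TensorIso) := by
  subst hN
  by_cases h : ∃ n : ℕ, x.length = 2 * n ^ 3
  · obtain ⟨n, hn⟩ := h
    have hset : {A : Gr (3 * x.length) | V (x, enc A.1) = true} =
        {A : Gr (3 * x.length) |
          BlkSol n (3 * x.length) (tens n x 0) (tens n x (n ^ 3)) A.1} := by
      ext A
      rw [Set.mem_ofPred_eq, Set.mem_ofPred_eq, hV]
      constructor
      · rintro ⟨m, hm, hB⟩
        have : m = n := cube_inj (hm.symm.trans hn)
        subst this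
        exact hB
      · intro hB
        exact ⟨n, hn, hB⟩
    have h3 : 3 * n ≤ 3 * x.length := by
      have := le_two_mul_cube n
      omega
    obtain ⟨h1, h2⟩ := hG n (3 * x.length) (tens n x 0) (tens n x (n ^ 3)) h3
    rw [hset]
    refine ⟨h1, ?_⟩
    have h4 : ({A : Gr (3 * x.length) |
          BlkSol n (3 * x.length) (tens n x 0) (tens n x (n ^ 3)) A.1}.Nonempty ↔
        ∃ M : Gr (3 * x.length),
          BlkSol n (3 * x.length) (tens n x 0) (tens n x (n ^ 3)) M.1) := Iff.rfl
    rw [h4, h2]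
    constructor
    · intro hT
      exact ⟨n, hn, hT⟩
    · rintro ⟨m, hm, hT⟩
      have : m = n := cube_inj (hm.symm.trans hn)
      subst this
      exact hT
  · have hemp : {A : Gr (3 * x.length) | V (x, enc A.1) = true} = ∅ := by
      ext A
      rw [Set.mem_ofPred_eq, hV]
      constructor
      · rintro ⟨m, hm, -⟩
        exact (h ⟨m, hm⟩).elim
      · intro hA
        exact hA.elim
    rw [hemp]
    refine ⟨?_, ?_⟩
    · intro a ha
      exact ha.elim
    · constructor
      · intro hne
        exact (Set.not_nonempty_empty hne).elim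
      · rintro ⟨m, hm, -⟩
        exact (h ⟨m, hm⟩).elim

theorem tif (hM : MaiStmt) (hG : TigStmt) (hT : TimStmt) : TifStmt := by
  obtain ⟨V, hP, hV⟩ := hT
  have hN : ∀ x : Word, (Polynomial.C 3 * Polynomial.X : Polynomial ℕ).eval x.length =
      3 * x.length := by
    intro x
    simp
  exact hM TensorIso V (Polynomial.C 3 * Polynomial.X) hP
    (fun x => (key hG V hV x _ (hN x)).2.symm) (fun x => (key hG V hV x _ (hN x)).1)

end Pool.Agent.COS.H13
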