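import Pool.Agent.COS.Stmts

/-!
# COS, row WRA: words of matrices
-/

namespace Pool.Agent.COS.H13

open Pool.Agent.PAR

theorem z2 (x : ZMod 2) : x = 0 ∨ x = 1 := by
  fin_cases x
  · exact Or.inl rfl
  · exact Or.inr rfl

theorem z2_ext {x y : ZMod 2} (h : x = 1 ↔ y = 1) : x = y := by
  rcases z2 x with hx | hx
  · rcases z2 y with hy | hy
    · rw [hx, hy]
    · rw [h.2 hy, hy]
  · rw [hx, h.1 hx]

theorem z2_ne (x : ZMod 2) : ¬ x = 1 ↔ x = 0 := by
  rcases z2 x with hx | hx
  · rw [hx]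
    exact ⟨fun _ => rfl, fun _ => by decide⟩
  · rw [hx]
    exact ⟨fun h => absurd rfl h, fun h => absurd h (by decide)⟩

theorem pos_lt {n i j : ℕ} (hi : i < n) (hj : j < n) : i * n + j < n * n := by
  calc i * n + j < i * n + n := by omega
    _ = (i + 1) * n := by ring
    _ ≤ n * n := Nat.mul_le_mul_right n hi

theorem div_eq {n i j : ℕ} (hj : j < n) : (i * n + j) / n = i := by
  have hn : 0 < n := by omega
  rw [mul_comm, Nat.mul_add_div hn, Nat.div_eq_of_lt hj, add_zero]

theorem mod_eq {n i j : ℕ} (hj : j < n) : (i * n + j) % n = j := by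
  rw [mul_comm, Nat.mul_add_mod, Nat.mod_eq_of_lt hj]

theorem len_enc {n : ℕ} (A : Matrix (Fin n) (Fin n) (ZMod 2)) : (enc A).length = n * n := by
  unfold enc
  rw [List.length_ofFn]

theorem get_enc {n : ℕ} (A : Matrix (Fin n) (Fin n) (ZMod 2)) (k : ℕ) (h : k < n * n)
    (h' : k < (enc A).length) :
    (enc A)[k] = decide (A (Fin.divNat ⟨k, h⟩) (Fin.modNat ⟨k, h⟩) = 1) :=
  List.getElem_ofFn (f := ent A) (i := k) h'

theorem gt_enc {n : ℕ} (A : Matrix (Fin n) (Fin n) (ZMod 2)) {i j : ℕ} (hi : i < n) (hj : j < n) :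
    gt n (enc A) i j = decide (A ⟨i, hi⟩ ⟨j, hj⟩ = 1) := by
  have h := pos_lt hi hj
  have h' : i * n + j < (enc A).length := by rw [len_enc]; exact h
  unfold gt
  rw [List.getD_eq_getElem _ _ h', get_enc A _ h]
  have h1 : Fin.divNat (⟨i * n + j, h⟩ : Fin (n * n)) = ⟨i, hi⟩ := Fin.ext (div_eq hj)
  have h2 : Fin.modNat (⟨i * n + j, h⟩ : Fin (n * n)) = ⟨j, hj⟩ := Fin.ext (mod_eq hj)
  rw [h1, h2]

theorem gt_enc' {n : ℕ} (A : Matrix (Fin n) (Fin n) (ZMod 2)) (i j : Fin n) :
    gt n (enc A) i j = decide (A i j = 1) := gt_enc A i.2 j.2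

theorem count_sum (p : ℕ → Bool) (n : ℕ) :
    (((List.range n).countP p : ℕ) : ZMod 2) = ∑ l : Fin n, (if p l then (1 : ZMod 2) else 0) := by
  rw [← Finset.sum_range (fun l => if p l then (1 : ZMod 2) else 0)]
  induction n with
  | zero => rfl
  | succ n ih =>
    rw [List.range_succ, List.countP_append, Nat.cast_add, ih, Finset.sum_range_succ]
    congr 1
    rw [List.countP_singleton]
    split <;> simp

theorem mul_z2 (x y : ZMod 2) :
    (if (decide (x = 1) && decide (y = 1)) = true then (1 : ZMod 2) else 0) = x * y := by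
  rcases z2 x with hx | hx <;> rcases z2 y with hy | hy <;> subst hx <;> subst hy <;> decide

theorem mulW_enc {n : ℕ} (A B : Matrix (Fin n) (Fin n) (ZMod 2)) :
    mulW n (enc A) (enc B) = enc (A * B) := by
  unfold mulW
  apply List.ext_getElem
  · rw [List.length_map, List.length_range, len_enc]
  intro k h1 h2
  have hk : k < n * n := by rwa [len_enc] at h2
  rw [List.getElem_map, List.getElem_range, get_enc _ _ hk]
  obtain ⟨i, hi⟩ : ∃ i : Fin n, i = Fin.divNat ⟨k, hk⟩ := ⟨_, rfl⟩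
  obtain ⟨j, hj⟩ : ∃ j : Fin n, j = Fin.modNat ⟨k, hk⟩ := ⟨_, rfl⟩
  have hi' : k / n = i := by rw [hi]; rfl
  have hj' : k % n = j := by rw [hj]; rfl
  rw [← hi, ← hj, hi', hj', Matrix.mul_apply]
  have h3 := count_sum (fun l => gt n (enc A) i l && gt n (enc B) l j) n
  have h4 : ∀ l : Fin n, (if (gt n (enc A) i l && gt n (enc B) l j) = true then (1 : ZMod 2)
      else 0) = A i l * B l j := by
    intro l
    rw [gt_enc', gt_enc', mul_z2]
  simp only [h4] at h3
  rw [← h3]
  have h5 : ∀ c : ℕ, decide (c % 2 = 1) = decide ((c : ZMod 2) = 1) := by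
    intro c
    apply decide_eq_decide.2
    rw [ZMod.natCast_eq_one_iff_odd, Nat.odd_iff]
  rw [h5]

theorem oneW_enc (n : ℕ) : oneW n = enc (1 : Matrix (Fin n) (Fin n) (ZMod 2)) := by
  unfold oneW
  apply List.ext_getElem
  · rw [List.length_map, List.length_range, len_enc]
  intro k h1 h2
  have hk : k < n * n := by rwa [len_enc] at h2
  rw [List.getElem_map, List.getElem_range, get_enc _ _ hk]
  obtain ⟨i, hi⟩ : ∃ i : Fin n, i = Fin.divNat ⟨k, hk⟩ := ⟨_, rfl⟩
  obtain ⟨j, hj⟩ : ∃ j : Fin n, j = Fin.modNat ⟨k, hk⟩ := ⟨_, rfl⟩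
  have hi' : k / n = i := by rw [hi]; rfl
  have hj' : k % n = j := by rw [hj]; rfl
  rw [← hi, ← hj, hi', hj', Matrix.one_apply]
  apply decide_eq_decide.2
  constructor
  · intro h
    rw [if_pos (Fin.ext h)]
  · intro h
    by_contra h'
    rw [if_neg (fun h'' => h' (congrArg Fin.val h''))] at h
    exact absurd h (by decide)

theorem all_fin {n : ℕ} {p : ℕ → Prop} : (∀ i < n, p i) ↔ ∀ i : Fin n, p i :=
  ⟨fun h i => h i i.2, fun h i hi => h ⟨i, hi⟩⟩

theorem redW_enc {n : ℕ} (A : Matrix (Fin n) (Fin n) (ZMod 2)) :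
    redW n (enc A) = true ↔ Red A := by
  unfold redW Red Lead
  rw [decide_eq_true_iff, all_fin]
  refine forall_congr' fun i => ?_
  rw [decide_eq_true_iff, all_fin]
  refine forall_congr' fun j => ?_
  rw [Bool.or_eq_true, Bool.not_eq_true', decide_eq_false_iff_not, decide_eq_true_iff, all_fin,
    ← imp_iff_not_or]
  refine imp_congr Fin.lt_def.symm (forall_congr' fun r => ?_)
  rw [Bool.or_eq_true, Bool.not_eq_true', Bool.not_eq_true', Bool.and_eq_false_iff, gt_enc',
    gt_enc', decide_eq_false_iff_not, decide_eq_false_iff_not, decide_eq_false_iff_not, all_fin]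
  have h1 : (∀ s : Fin n, (!decide ((s : ℕ) < r) || !gt n (enc A) s i) = true) ↔
      ∀ s < r, A s i = 0 := by
    refine forall_congr' fun s => ?_
    rw [Bool.or_eq_true, Bool.not_eq_true', Bool.not_eq_true', gt_enc', decide_eq_false_iff_not,
      decide_eq_false_iff_not, ← imp_iff_not_or, z2_ne]
    exact imp_congr Fin.lt_def.symm Iff.rfl
  rw [h1, ← not_and_or, ← imp_iff_not_or, z2_ne]

theorem uniW_enc {n : ℕ} (A : Matrix (Fin n) (Fin n) (ZMod 2)) :
    uniW n (enc A) = true ↔ IsUni A := by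
  unfold uniW IsUni
  rw [decide_eq_true_iff, all_fin, ← forall_and]
  refine forall_congr' fun i => ?_
  rw [Bool.and_eq_true, gt_enc', decide_eq_true_iff, decide_eq_true_iff, all_fin]
  refine and_congr_right fun _ => forall_congr' fun j => ?_
  rw [Bool.or_eq_true, Bool.not_eq_true', Bool.not_eq_true', gt_enc', decide_eq_false_iff_not,
    decide_eq_false_iff_not, ← imp_iff_not_or, z2_ne]
  exact imp_congr Fin.lt_def.symm Iff.rfl

theorem enc_surj {n : ℕ} (w : Word) (hw : w.length = n * n) :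
    ∃ A : Matrix (Fin n) (Fin n) (ZMod 2), enc A = w := by
  obtain ⟨A, hA⟩ : ∃ A : Matrix (Fin n) (Fin n) (ZMod 2),
      ∀ i j : Fin n, A i j = if w.getD (i * n + j) false = true then (1 : ZMod 2) else 0 :=
    ⟨Matrix.of fun i j => if w.getD (i * n + j) false then 1 else 0, fun i j => rfl⟩
  refine ⟨A, ?_⟩
  apply List.ext_getElem
  · rw [len_enc, hw]
  intro k h1 h2
  have hk : k < n * n := by rwa [hw] at h2
  rw [get_enc _ _ hk, hA]
  have h3 : k / n * n + k % n = k := Nat.div_add_mod' k n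
  have h4 : w.getD (k / n * n + k % n) false = w[k] := by
    rw [h3, List.getD_eq_getElem _ _ h2]
  change decide ((if w.getD (k / n * n + k % n) false = true then (1 : ZMod 2) else 0) = 1) = w[k]
  rw [h4]
  cases w[k] <;> decide

theorem enc_inj {n : ℕ} (A B : Matrix (Fin n) (Fin n) (ZMod 2)) (h : enc A = enc B) : A = B := by
  ext i j
  apply z2_ext
  have h1 := gt_enc' A i j
  rw [h, gt_enc'] at h1
  exact (decide_eq_decide.1 h1).symm

theorem wra : WraStmt := fun n =>
  ⟨mulW_enc, oneW_enc n, fun A => ⟨redW_enc A, uniW_enc A⟩, enc_surj, enc_inj, len_enc⟩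

end Pool.Agent.COS.H13
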